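import Pool.Agent.H754Z.TA.Str

set_option autoImplicit false

namespace Pool.Agent.H754Z.TA.P3b

open MeasureTheory Filter Topology Pointwise

universe u v

/-- The reduction of `exists_nss` to the compact case and to the trapping lemma. -/
theorem exists_nss_of {G : Type u} [Group G] [TopologicalSpace G] [IsTopologicalGroup G]
    [LocallyCompactSpace G] [T2Space G]
    (hc : ∀ {H : Type u} [Group H] [TopologicalSpace H] [IsTopologicalGroup H] [CompactSpace H]
      [T2Space H] (W : Set H), W ∈ 𝓝 (1 : H) →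
      ∃ N : Subgroup H, IsClosed (N : Set H) ∧ (N : Set H) ⊆ W ∧
        ∃ O : Set H, IsOpen O ∧ (N : Set H) ⊆ O ∧ ∀ S : Subgroup H, (S : Set H) ⊆ O → S ≤ N)
    (ht : ∀ U : Set G, U ∈ 𝓝 (1 : G) →
      ∃ V ∈ 𝓝 (1 : G),
        ((Subgroup.closure {g : G | ∀ j : ℤ, g ^ j ∈ V} : Subgroup G) : Set G) ⊆ U)
    (W : Set G) (hW : W ∈ 𝓝 (1 : G)) :
    ∃ K : Subgroup G, IsCompact (K : Set G) ∧ (K : Set G) ⊆ W ∧
      (∀ᶠ g in 𝓝 (1 : G), ∀ k ∈ K, g * k * g⁻¹ ∈ K) ∧
      ∃ O : Set G, IsOpen O ∧ (K : Set G) ⊆ O ∧ ∀ S : Subgroup G, (S : Set G) ⊆ O → S ≤ K := by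
  obtain ⟨U, hU, hUW, hUc⟩ := local_compact_nhds hW
  obtain ⟨V, hV, hVU⟩ := ht U hU
  set Q : Subgroup G := Subgroup.closure {g : G | ∀ j : ℤ, g ^ j ∈ V} with hQ
  set H : Subgroup G := Q.topologicalClosure with hH
  have hHU : (H : Set G) ⊆ U := by
    rw [hH, Subgroup.topologicalClosure_coe]
    exact closure_minimal hVU hUc.isClosed
  have hHcl : IsClosed (H : Set G) := Q.isClosed_topologicalClosure
  have hHc : IsCompact (H : Set G) := hUc.of_isClosed_subset hHcl hHU
  have : CompactSpace H := isCompact_iff_compactSpace.mp hHc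
  have hVi : (Subtype.val ⁻¹' interior V : Set H) ∈ 𝓝 (1 : H) :=
    (isOpen_interior.preimage continuous_subtype_val).mem_nhds
      (mem_interior_iff_mem_nhds.mpr hV)
  obtain ⟨N, hNcl, hNV, OH, hOH, hNO, hmax⟩ := hc (H := H) _ hVi
  obtain ⟨O, hO, rfl⟩ := isOpen_induced_iff.mp hOH
  set K : Subgroup G := N.map H.subtype with hK
  have hKc : IsCompact (K : Set G) := by
    rw [hK, Subgroup.coe_map]
    exact hNcl.isCompact.image continuous_subtype_val
  have hKO : (K : Set G) ⊆ O ∩ interior V := by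
    rintro _ ⟨n, hn, rfl⟩
    exact ⟨hNO hn, hNV hn⟩
  have hO' : IsOpen (O ∩ interior V) := hO.inter isOpen_interior
  have hKmax : ∀ S : Subgroup G, (S : Set G) ⊆ O ∩ interior V → S ≤ K := by
    intro S hS
    have hSH : S ≤ H := by
      intro s hs
      apply Q.le_topologicalClosure
      apply Subgroup.subset_closure
      intro j
      exact interior_subset (hS (S.zpow_mem hs j)).2
    have h1 : S.comap H.subtype ≤ N := by
      apply hmax
      intro x hx
      exact (hS hx).1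
    intro s hs
    exact ⟨⟨s, hSH hs⟩, h1 hs, rfl⟩
  refine ⟨K, hKc, ?_, ?_, O ∩ interior V, hO', hKO, hKmax⟩
  · rintro _ ⟨n, _, rfl⟩
    exact hUW (hHU n.2)
  · have hev : ∀ᶠ g in 𝓝 (1 : G), ∀ k ∈ (K : Set G), g * k * g⁻¹ ∈ O ∩ interior V := by
      apply hKc.eventually_forall_of_forall_eventually
      intro k hk
      have hcont : Continuous fun z : G × G => z.1 * z.2 * z.1⁻¹ := by fun_prop
      apply hcont.continuousAt.eventually_mem
      apply hO'.mem_nhds
      simpa using hKO hk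
    filter_upwards [hev] with g hg k hk
    have h2 : K.map (MulAut.conj g).toMonoidHom ≤ K := by
      apply hKmax
      rintro _ ⟨x, hx, rfl⟩
      exact hg x hx
    exact h2 ⟨k, hk, rfl⟩

end Pool.Agent.H754Z.TA.P3b
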